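import Pool.Agent.TH464.PO.Gap

set_option autoImplicit false

/-!
# Thinning a set by few elements does not change its gap laws
-/

namespace Pool.Agent.Y32.GC

open Finset Filter
open Pool.Agent.TH464.PO

open Classical in
/-- the number of the elements of `(X, X + Y]` in `g` -/
noncomputable def Nm (g : ℕ → Prop) (X Y : ℕ) : ℕ := ((Ioc X (X + Y)).filter g).card

/-- the elements of `S` outside `S'` -/
def Df (S S' : ℕ → Prop) (m : ℕ) : Prop := S m ∧ ¬ S' m

open Classical in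
lemma Pk_one (g : ℕ → Prop) (X Y : ℕ) : Pk g 1 0 X Y = Nm g X Y := by
  unfold Pk Nm
  congr 1
  apply Finset.filter_congr
  intro b _
  simp

open Classical in
lemma Pk_mono (g : ℕ → Prop) {k l : ℕ} (h : k ≤ l) (T X Y : ℕ) : Pk g k T X Y ≤ Pk g l T X Y := by
  unfold Pk
  apply card_le_card
  intro b hb
  rw [mem_filter] at hb ⊢
  exact ⟨hb.1, hb.2.1, by omega⟩

open Classical in
lemma Pk_le (g : ℕ → Prop) (k T X Y : ℕ) : Pk g k T X Y ≤ Nm g X Y := by
  unfold Pk Nm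
  apply card_le_card
  intro b hb
  rw [mem_filter] at hb ⊢
  exact ⟨hb.1, hb.2.1⟩

open Classical in
lemma Nm_mono (g h : ℕ → Prop) (hgh : ∀ m, g m → h m) (X Y : ℕ) : Nm g X Y ≤ Nm h X Y := by
  unfold Nm
  apply card_le_card
  intro b hb
  rw [mem_filter] at hb ⊢
  exact ⟨hb.1, hgh _ hb.2⟩

open Classical in
/-- the lower bound -/
lemma Pk_ge (S S' : ℕ → Prop) (hS : ∀ m, S' m → S m) (k T X Y : ℕ) :
    Pk S k T X Y ≤ Pk S' k T X Y + Nm (Df S S') X Y := by
  unfold Pk Nm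
  rw [← card_union_of_disjoint]
  · apply card_le_card
    intro b hb
    rw [mem_filter] at hb
    rw [mem_union, mem_filter, mem_filter]
    by_cases h : S' b
    · left
      refine ⟨hb.1, h, lt_of_le_of_lt (card_le_card ?_) hb.2.2⟩
      intro m hm
      rw [mem_filter] at hm ⊢
      exact ⟨hm.1, hS m hm.2⟩
    · right
      exact ⟨hb.1, hb.2.1, h⟩
  · rw [Finset.disjoint_left]
    intro b hb hb'
    rw [mem_filter] at hb hb'
    exact hb'.2.2 hb.2.1

open Classical in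
/-- the first `k` elements after `c` -/
lemma first_card (g : ℕ → Prop) (k c M : ℕ) :
    ((Ioc c M).filter (fun b => g b ∧ ((Ioo c b).filter g).card < k)).card ≤ k := by
  by_contra hcon
  rw [not_le] at hcon
  obtain ⟨F, hF⟩ : ∃ F, F = (Ioc c M).filter (fun b => g b ∧ ((Ioo c b).filter g).card < k) :=
    ⟨_, rfl⟩
  rw [← hF] at hcon
  have hne : F.Nonempty := card_pos.1 (by omega)
  obtain ⟨b, hb⟩ : ∃ b, b = F.max' hne := ⟨_, rfl⟩
  have hbF : b ∈ F := hb ▸ F.max'_mem hne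
  have hb2 := hbF
  rw [hF, mem_filter] at hb2
  have hsub : F.erase b ⊆ (Ioo c b).filter g := by
    intro x hx
    rw [mem_erase] at hx
    have hx2 := hx.2
    rw [hF, mem_filter, mem_Ioc] at hx2
    rw [mem_filter, mem_Ioo]
    refine ⟨⟨hx2.1.1, lt_of_le_of_ne ?_ hx.1⟩, hx2.2.1⟩
    rw [hb]
    exact F.le_max' x hx.2
  have h1 := card_le_card hsub
  rw [card_erase_of_mem hbF] at h1
  omega

open Classical in
/-- the upper bound -/
lemma Pk_thin_le (S S' : ℕ → Prop) (hS : ∀ m, S' m → S m) (k T X Y : ℕ) :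
    Pk S' k T X Y ≤ Pk S k T X Y + k * (Nm (Df S S') X Y + 1) := by
  obtain ⟨E, hE⟩ : ∃ E, E = (Ioc X (X + Y)).filter (Df S S') := ⟨_, rfl⟩
  obtain ⟨C, hC⟩ : ∃ C, C = insert X E := ⟨_, rfl⟩
  obtain ⟨A, hA⟩ : ∃ A, A = (Ioc X (X + Y)).filter
    (fun b => S b ∧ ((Ico (b - T) b).filter S).card < k) := ⟨_, rfl⟩
  obtain ⟨B, hB⟩ : ∃ B : ℕ → Finset ℕ, B = fun c => (Ioc c (X + Y)).filter
    (fun b => S' b ∧ ((Ioo c b).filter S').card < k) := ⟨_, rfl⟩
  have hsub : (Ioc X (X + Y)).filter (fun b => S' b ∧ ((Ico (b - T) b).filter S').card < k) ⊆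
      A ∪ C.biUnion B := by
    intro b hb
    rw [mem_filter, mem_Ioc] at hb
    rw [mem_union]
    by_cases h : ((Ico (b - T) b).filter S).card < k
    · left
      rw [hA, mem_filter, mem_Ioc]
      exact ⟨hb.1, hS b hb.2.1, h⟩
    · right
      have hex : ∃ e, e ∈ Ico (b - T) b ∧ S e ∧ ¬ S' e := by
        by_contra hcon
        push Not at hcon
        apply h
        refine lt_of_le_of_lt (card_le_card ?_) hb.2.2
        intro m hm
        rw [mem_filter] at hm ⊢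
        exact ⟨hm.1, hcon m hm.1 hm.2⟩
      obtain ⟨e, he1, he2, he3⟩ := hex
      rw [mem_Ico] at he1
      rw [mem_biUnion]
      by_cases heX : X < e
      · refine ⟨e, ?_, ?_⟩
        · rw [hC, mem_insert]
          right
          rw [hE, mem_filter, mem_Ioc]
          exact ⟨⟨heX, by omega⟩, he2, he3⟩
        · rw [hB]
          simp only
          rw [mem_filter, mem_Ioc]
          refine ⟨⟨he1.2, hb.1.2⟩, hb.2.1, lt_of_le_of_lt (card_le_card ?_) hb.2.2⟩
          intro m hm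
          rw [mem_filter, mem_Ioo] at hm
          rw [mem_filter, mem_Ico]
          exact ⟨⟨by omega, hm.1.2⟩, hm.2⟩
      · refine ⟨X, ?_, ?_⟩
        · rw [hC, mem_insert]
          left
          rfl
        · rw [hB]
          simp only
          rw [mem_filter, mem_Ioc]
          refine ⟨hb.1, hb.2.1, lt_of_le_of_lt (card_le_card ?_) hb.2.2⟩
          intro m hm
          rw [mem_filter, mem_Ioo] at hm
          rw [mem_filter, mem_Ico]
          exact ⟨⟨by omega, hm.1.2⟩, hm.2⟩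
  have h1 : Pk S' k T X Y ≤ A.card + (C.biUnion B).card := by
    unfold Pk
    exact (card_le_card hsub).trans (card_union_le _ _)
  have h2 : (C.biUnion B).card ≤ C.card * k := by
    apply card_biUnion_le_card_mul
    intro c _
    rw [hB]
    exact first_card S' k c (X + Y)
  have h3 : C.card ≤ E.card + 1 := by
    rw [hC]
    exact card_insert_le _ _
  have h4 : A.card = Pk S k T X Y := by
    rw [hA]
    rfl
  have h5 : E.card = Nm (Df S S') X Y := by
    rw [hE]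
    rfl
  calc Pk S' k T X Y ≤ A.card + (C.biUnion B).card := h1
    _ ≤ Pk S k T X Y + C.card * k := by rw [h4]; omega
    _ ≤ Pk S k T X Y + (E.card + 1) * k := by gcongr
    _ = Pk S k T X Y + k * (Nm (Df S S') X Y + 1) := by rw [h5]; ring

/-- the Poisson distribution function is close to one -/
lemma Ck_tail (x0 ε : ℝ) (hε : 0 < ε) : ∃ L : ℕ, ∀ l : ℕ, L ≤ l → ∀ x : ℝ, 0 ≤ x → x ≤ x0 →
    1 - ε ≤ Ck l x := by
  by_cases hx0 : x0 < 0
  · exact ⟨0, fun l _ x h1 h2 => by linarith⟩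
  rw [not_lt] at hx0
  have hsum : Summable (fun i : ℕ => x0 ^ i / (i.factorial : ℝ)) := Real.summable_pow_div_factorial x0
  have htail := tendsto_sum_nat_add (fun i : ℕ => x0 ^ i / (i.factorial : ℝ))
  obtain ⟨L, hL⟩ := ((tendsto_order.1 htail).2 ε hε).exists
  refine ⟨L, fun l hl x hx hxx => ?_⟩
  refine le_trans ?_ (Ck_mono_k L l hl x hx)
  have hs : HasSum (fun i : ℕ => x ^ i / (i.factorial : ℝ)) (Real.exp x) := by
    have := NormedSpace.expSeries_div_hasSum_exp (x : ℝ)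
    rwa [← Real.exp_eq_exp_ℝ] at this
  have e : Ck L x = Real.exp (-x) * ∑ j ∈ range L, x ^ j / (j.factorial : ℝ) := by
    unfold Ck pw
    rw [Finset.mul_sum]
    exact Finset.sum_congr rfl fun j _ => by ring
  have h1 : ∑ j ∈ range L, x ^ j / (j.factorial : ℝ) +
      ∑' i : ℕ, x ^ (i + L) / ((i + L).factorial : ℝ) = Real.exp x := by
    rw [hs.summable.sum_add_tsum_nat_add L, hs.tsum_eq]
  have h2 : ∑' i : ℕ, x ^ (i + L) / ((i + L).factorial : ℝ) ≤
      ∑' i : ℕ, x0 ^ (i + L) / ((i + L).factorial : ℝ) := by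
    apply Summable.tsum_le_tsum
    · intro i
      gcongr
    · exact (summable_nat_add_iff L).2 hs.summable
    · exact (summable_nat_add_iff L).2 hsum
  have h3 : ∑ j ∈ range L, x ^ j / (j.factorial : ℝ) ≥ Real.exp x - ε := by linarith
  rw [e]
  have hexp1 : Real.exp (-x) ≤ 1 := by
    rw [Real.exp_le_one_iff]
    linarith
  calc 1 - ε ≤ 1 - Real.exp (-x) * ε := by nlinarith
    _ = Real.exp (-x) * (Real.exp x - ε) := by
        rw [mul_sub, ← Real.exp_add]
        simp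
    _ ≤ Real.exp (-x) * ∑ j ∈ range L, x ^ j / (j.factorial : ℝ) := by
        apply mul_le_mul_of_nonneg_left h3 (Real.exp_pos _).le

/-- **Transfer of the gap laws.** -/
theorem transfer (l0 : ℕ) (x0 ε : ℝ) (hε : 0 < ε) :
    ∃ (L : ℕ) (δ : ℝ), 0 < δ ∧ ∀ (S S' : ℕ → Prop), (∀ m, S' m → S m) → ∀ (V : ℝ) (X Y : ℕ),
      0 ≤ V → 1 ≤ δ * (Y * V) → (Nm (Df S S') X Y : ℝ) ≤ δ * (Y * V) →
      (∀ l T : ℕ, (l ≤ L ∨ T * V ≤ x0) →
        |(Pk S l T X Y : ℝ) - Y * V * Ck l (T * V)| ≤ δ * (Y * V)) →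
      ∀ l T : ℕ, (l ≤ l0 ∨ T * V ≤ x0) →
        |(Pk S' l T X Y : ℝ) - Y * V * Ck l (T * V)| ≤ ε * (Y * V) := by
  obtain ⟨L1, hL1⟩ := Ck_tail x0 (ε / 2) (by positivity)
  obtain ⟨L, hL⟩ : ∃ L, L = max (max l0 L1) 1 := ⟨_, rfl⟩
  obtain ⟨δ, hδ⟩ : ∃ δ, δ = ε / (2 * (2 * (L : ℝ) + 2)) := ⟨_, rfl⟩
  have hδ0 : 0 < δ := by rw [hδ]; positivity
  have hLδ : (2 * (L : ℝ) + 2) * δ = ε / 2 := by
    rw [hδ]
    field_simp
  refine ⟨L, δ, hδ0, ?_⟩
  intro S S' hS V X Y hV h1 hE hlaw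
  have hYV : 0 ≤ (Y : ℝ) * V := by positivity
  have hLr : (0 : ℝ) ≤ L := Nat.cast_nonneg _
  -- small l
  have hsmall : ∀ l T : ℕ, l ≤ L →
      |(Pk S' l T X Y : ℝ) - Y * V * Ck l (T * V)| ≤ ε / 2 * (Y * V) := by
    intro l T hl
    have a1 := abs_le.1 (hlaw l T (Or.inl hl))
    have a2 : (Pk S l T X Y : ℝ) ≤ Pk S' l T X Y + Nm (Df S S') X Y := by
      exact_mod_cast Pk_ge S S' hS l T X Y
    have a3 : (Pk S' l T X Y : ℝ) ≤ Pk S l T X Y + l * (Nm (Df S S') X Y + 1) := by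
      exact_mod_cast Pk_thin_le S S' hS l T X Y
    have hlr : (l : ℝ) ≤ L := by exact_mod_cast hl
    have hN0 : (0 : ℝ) ≤ Nm (Df S S') X Y := Nat.cast_nonneg _
    have a4 : (l : ℝ) * (Nm (Df S S') X Y + 1) ≤ L * (2 * (δ * (Y * V))) := by
      apply mul_le_mul hlr _ (by positivity) hLr
      linarith
    have hδYV : 0 ≤ δ * (Y * V) := by positivity
    have e1 : ε / 2 * (Y * V) = 2 * L * (δ * (Y * V)) + 2 * (δ * (Y * V)) := by
      rw [← hLδ]
      ring
    rw [abs_le]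
    have hLδ2 : 0 ≤ (L : ℝ) * (δ * (Y * V)) := by positivity
    constructor
    · linarith
    · linarith
  intro l T hlT
  by_cases hl : l ≤ L
  · refine (hsmall l T hl).trans ?_
    apply mul_le_mul_of_nonneg_right _ hYV
    linarith
  · rw [not_le] at hl
    have hTV : T * V ≤ x0 := by
      rcases hlT with h | h
      · exfalso
        have : l0 ≤ L := by rw [hL]; omega
        omega
      · exact h
    have hTV0 : 0 ≤ (T : ℝ) * V := by positivity
    have b1 := abs_le.1 (hsmall L T le_rfl)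
    have b2 : (Pk S' L T X Y : ℝ) ≤ Pk S' l T X Y := by exact_mod_cast Pk_mono S' hl.le T X Y
    have b3 : 1 - ε / 2 ≤ Ck L (T * V) := hL1 L (by rw [hL]; omega) _ hTV0 hTV
    have b4 : Ck l (T * V) ≤ 1 := Ck_le_one _ _ hTV0
    have b5 : 1 - ε / 2 ≤ Ck l (T * V) := hL1 l (by
      have : L1 ≤ L := by rw [hL]; omega
      omega) _ hTV0 hTV
    -- the upper bound
    have b6 : (Pk S' l T X Y : ℝ) ≤ Nm S X Y := by
      exact_mod_cast (Pk_le S' l T X Y).trans (Nm_mono S' S hS X Y)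
    have b7 := abs_le.1 (hlaw 1 0 (Or.inl (by rw [hL]; omega)))
    rw [Pk_one] at b7
    have b8 : Ck 1 ((0 : ℕ) * V) = 1 := by
      unfold Ck pw
      simp
    rw [b8] at b7
    have hδε : δ ≤ ε / 2 := by
      rw [← hLδ]
      nlinarith
    have c1 : Y * V * (1 - ε / 2) ≤ Y * V * Ck L (T * V) := mul_le_mul_of_nonneg_left b3 hYV
    have c2 : Y * V * Ck l (T * V) ≤ Y * V * 1 := mul_le_mul_of_nonneg_left b4 hYV
    have c3 : Y * V * (1 - ε / 2) ≤ Y * V * Ck l (T * V) := mul_le_mul_of_nonneg_left b5 hYV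
    have c4 : δ * (Y * V) ≤ ε / 2 * (Y * V) := mul_le_mul_of_nonneg_right hδε hYV
    rw [abs_le]
    constructor
    · nlinarith
    · nlinarith

end Pool.Agent.Y32.GC
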