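import Pool.Agent.Y32.GC.Core
import Pool.Agent.Y859.SP.Tup

set_option autoImplicit false

/-!
# The gap laws for patterns of consecutive rough integers
-/

namespace Pool.Agent.Y32.GC

open Finset Filter
open Pool.Agent.W123.RP Pool.Agent.H373R2.T7 Pool.Agent.W123.RU
open Pool.Agent.TH464.PW Pool.Agent.TH464.PO Pool.Agent.Y859.SP
open Pool.Agent.Y859.SP.Tup (QT Adm perB_QT adm_QT ctl_QT root_exists dvd_mod)

variable {k : ℕ}

/-- a bound for the shifts -/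
def bd (d : Fin k → ℕ) : ℕ := ∑ i, d i

lemma le_bd (d : Fin k → ℕ) (i : Fin k) : d i ≤ bd d :=
  Finset.single_le_sum (f := d) (fun _ _ => Nat.zero_le _) (mem_univ i)

open Classical in
/-- the shifts strictly between two elements of the pattern and not in the pattern -/
noncomputable def Hs (d : Fin k → ℕ) : Finset ℕ :=
  (range (bd d)).filter (fun h => (∃ i, d i < h) ∧ (∃ j, h < d j) ∧ ∀ l, d l ≠ h)

lemma mem_Hs (d : Fin k → ℕ) (h : ℕ) :
    h ∈ Hs d ↔ (∃ i, d i < h) ∧ (∃ j, h < d j) ∧ ∀ l, d l ≠ h := by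
  unfold Hs
  rw [mem_filter, mem_range]
  constructor
  · exact fun h => h.2
  · intro hh
    refine ⟨?_, hh⟩
    obtain ⟨j, hj⟩ := hh.2.1
    exact hj.trans_le (le_bd d j)

/-- the positions of the consecutive rough integers with the pattern `d` -/
def Sc (d : Fin k → ℕ) (y m : ℕ) : Prop :=
  Sf (QT d) y m ∧ ∀ h ∈ Hs d, ∃ p ∈ pz y, p ∣ m + h

lemma sf_snoc (d : Fin k → ℕ) (h y m : ℕ) : Sf (QT (Fin.snoc d h : Fin (k + 1) → ℕ)) y m ↔
    Sf (QT d) y m ∧ ∀ p ∈ pz y, ¬ p ∣ m + h := by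
  unfold Sf QT
  constructor
  · intro H
    refine ⟨fun p hp ⟨i, hi⟩ => H p hp ⟨i.castSucc, ?_⟩, fun p hp hd => H p hp ⟨Fin.last k, ?_⟩⟩
    · rw [Fin.snoc_castSucc (α := fun _ => ℕ)]
      exact hi
    · rw [Fin.snoc_last (α := fun _ => ℕ)]
      exact hd
  · rintro ⟨H1, H2⟩ p hp ⟨i, hi⟩
    induction i using Fin.lastCases with
    | last =>
      rw [Fin.snoc_last (α := fun _ => ℕ)] at hi
      exact H2 p hp hi
    | cast i =>
      rw [Fin.snoc_castSucc (α := fun _ => ℕ)] at hi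
      exact H1 p hp ⟨i, hi⟩

lemma df_sub (d : Fin k → ℕ) (y m : ℕ) (h : Df (Sf (QT d) y) (Sc d y) m) :
    ∃ h ∈ Hs d, Sf (QT (Fin.snoc d h : Fin (k + 1) → ℕ)) y m := by
  obtain ⟨h1, h2⟩ := h
  unfold Sc at h2
  rw [not_and] at h2
  have h3 := h2 h1
  push Not at h3
  obtain ⟨h, hh, h4⟩ := h3
  exact ⟨h, hh, (sf_snoc d h y m).2 ⟨h1, h4⟩⟩

open Classical in
lemma nm_df (d : Fin k → ℕ) (y X Y : ℕ) : Nm (Df (Sf (QT d) y) (Sc d y)) X Y ≤
    ∑ h ∈ Hs d, Nm (Sf (QT (Fin.snoc d h : Fin (k + 1) → ℕ)) y) X Y := by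
  unfold Nm
  refine le_trans (card_le_card ?_) card_biUnion_le
  intro m hm
  rw [mem_filter] at hm
  obtain ⟨h, hh, h1⟩ := df_sub d y m hm.2
  rw [mem_biUnion]
  exact ⟨h, hh, mem_filter.2 ⟨hm.1, h1⟩⟩

lemma inj_snoc (d : Fin k → ℕ) (hd : Function.Injective d) (h : ℕ) (hh : ∀ l, d l ≠ h) :
    Function.Injective (Fin.snoc d h : Fin (k + 1) → ℕ) := by
  intro i j hij
  induction i using Fin.lastCases with
  | last =>
    induction j using Fin.lastCases with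
    | last => rfl
    | cast j =>
      rw [Fin.snoc_last (α := fun _ => ℕ), Fin.snoc_castSucc (α := fun _ => ℕ)] at hij
      exact absurd hij.symm (hh j)
  | cast i =>
    induction j using Fin.lastCases with
    | last =>
      rw [Fin.snoc_last (α := fun _ => ℕ), Fin.snoc_castSucc (α := fun _ => ℕ)] at hij
      exact absurd hij (hh i)
    | cast j =>
      rw [Fin.snoc_castSucc (α := fun _ => ℕ), Fin.snoc_castSucc (α := fun _ => ℕ)] at hij
      rw [hd hij]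

open Classical in
lemma nu_mono (d : Fin k → ℕ) (h p : ℕ) :
    nuB (QT d) p ≤ nuB (QT (Fin.snoc d h : Fin (k + 1) → ℕ)) p := by
  unfold nuB
  apply card_le_card
  intro m hm
  rw [mem_filter] at hm ⊢
  obtain ⟨h1, i, hi⟩ := hm
  refine ⟨h1, i.castSucc, ?_⟩
  rw [Fin.snoc_castSucc (α := fun _ => ℕ)]
  exact hi

open Classical in
lemma nu_succ (d : Fin k → ℕ) (h : ℕ) (hh : ∀ l, d l ≠ h) (D : ℕ) (hD : ∀ l, d l ≤ D) (hhD : h ≤ D)
    (p : ℕ) (hp : p.Prime) (hDp : D < p) :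
    nuB (QT d) p + 1 ≤ nuB (QT (Fin.snoc d h : Fin (k + 1) → ℕ)) p := by
  obtain ⟨m, hm, hm2⟩ := root_exists h p hp
  unfold nuB
  rw [Nat.succ_le_iff]
  apply card_lt_card
  refine ⟨?_, ?_⟩
  · intro m hm
    rw [mem_filter] at hm ⊢
    obtain ⟨h1, i, hi⟩ := hm
    refine ⟨h1, i.castSucc, ?_⟩
    rw [Fin.snoc_castSucc (α := fun _ => ℕ)]
    exact hi
  · intro hsub
    have hmem : m ∈ (range p).filter (fun r => QT (Fin.snoc d h : Fin (k + 1) → ℕ) p r) := by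
      rw [mem_filter, mem_range]
      refine ⟨hm, Fin.last k, ?_⟩
      rw [Fin.snoc_last (α := fun _ => ℕ)]
      exact hm2
    have h2 := hsub hmem
    rw [mem_filter] at h2
    obtain ⟨-, i, hi⟩ := h2
    have hne := hh i
    have hi' := hD i
    have e : (p : ℤ) ∣ (d i : ℤ) - h := by
      have e1 : (p : ℤ) ∣ (m : ℤ) + d i := by exact_mod_cast Int.natCast_dvd_natCast.2 hi
      have e2 : (p : ℤ) ∣ (m : ℤ) + h := by exact_mod_cast Int.natCast_dvd_natCast.2 hm2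
      have e3 : (d i : ℤ) - h = ((m : ℤ) + d i) - ((m : ℤ) + h) := by ring
      rw [e3]
      exact dvd_sub e1 e2
    have h3 : (d i : ℤ) - h = 0 := by
      apply Int.eq_zero_of_abs_lt_dvd e
      rw [abs_lt]
      omega
    omega

lemma V_snoc (d : Fin k → ℕ) (h : ℕ) (hh : ∀ l, d l ≠ h) (D : ℕ) (hD : ∀ l, d l ≤ D) (hhD : h ≤ D)
    (y : ℕ) (hDy : D ≤ y) :
    Vq (QT (Fin.snoc d h : Fin (k + 1) → ℕ)) y * Vz D ≤ Vq (QT d) y * Vz y := by
  classical
  have e1 : Vz D = ∏ p ∈ pz y, (if p ≤ D then (1 - 1 / (p : ℝ)) else 1) := by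
    unfold Vz
    rw [Finset.prod_ite, Finset.prod_const_one, mul_one]
    apply Finset.prod_congr _ (fun _ _ => rfl)
    ext p
    rw [mem_filter, mem_pz, mem_pz]
    constructor
    · intro hp
      exact ⟨⟨by omega, hp.2⟩, by omega⟩
    · intro hp
      exact ⟨by omega, hp.1.2⟩
  rw [e1]
  unfold Vq Vz
  rw [← Finset.prod_mul_distrib, ← Finset.prod_mul_distrib]
  apply Finset.prod_le_prod
  · intro p hp
    have hpp := (mem_pz.1 hp).2
    have h2 : (2 : ℝ) ≤ p := by exact_mod_cast hpp.two_le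
    apply mul_nonneg (one_sub_nonneg _ p hpp)
    split_ifs
    · have : 1 / (p : ℝ) ≤ 1 := by
        rw [div_le_one (by linarith)]
        linarith
      linarith
    · norm_num
  · intro p hp
    have hpp := (mem_pz.1 hp).2
    have h2 : (2 : ℝ) ≤ p := by exact_mod_cast hpp.two_le
    have hp0 : (0 : ℝ) < p := by linarith
    have hinv : 1 / (p : ℝ) ≤ 1 := by
      rw [div_le_one hp0]
      linarith
    split_ifs with hpD
    · apply mul_le_mul_of_nonneg_right _ (by linarith)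
      have : (nuB (QT d) p : ℝ) / p ≤ nuB (QT (Fin.snoc d h : Fin (k + 1) → ℕ)) p / p := by
        apply div_le_div_of_nonneg_right _ hp0.le
        exact_mod_cast nu_mono d h p
      linarith
    · have h3 : (nuB (QT d) p : ℝ) + 1 ≤ nuB (QT (Fin.snoc d h : Fin (k + 1) → ℕ)) p := by
        exact_mod_cast nu_succ d h hh D hD hhD p hpp (by omega)
      have h4 : ((nuB (QT d) p : ℝ) + 1) / p ≤ nuB (QT (Fin.snoc d h : Fin (k + 1) → ℕ)) p / p := by
        gcongr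
      have h5 : (1 - (nuB (QT d) p : ℝ) / p) * (1 - 1 / p) =
          1 - ((nuB (QT d) p : ℝ) + 1) / p + (nuB (QT d) p : ℝ) / p * (1 / p) := by
        field_simp
        ring
      have h6 : 0 ≤ (nuB (QT d) p : ℝ) / p * (1 / p) := by positivity
      rw [mul_one, h5]
      linarith

open Classical in
/-- **The gap laws for consecutive rough integers.** -/
theorem pattern_law (hk : 2 ≤ k) (d : Fin k → ℕ) (hadm : Adm d) (hinj : Function.Injective d)
    (θ : ℝ) (hθ : 0 < θ) (l0 : ℕ) (x0 ε : ℝ) (hε : 0 < ε) :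
    ∃ r0 : ℕ, ∀ r : ℕ, r0 ≤ r → ∀ᶠ X : ℕ in atTop,
      ∀ Z Y : ℕ, (X : ℝ) ^ θ ≤ Y →
      ∀ l T : ℕ, (l ≤ l0 ∨ T * Vq (QT d) ⌊(X : ℝ) ^ (1 / (r : ℝ))⌋₊ ≤ x0) →
        |(Pk (Sc d ⌊(X : ℝ) ^ (1 / (r : ℝ))⌋₊) l T Z Y : ℝ) -
          Y * Vq (QT d) ⌊(X : ℝ) ^ (1 / (r : ℝ))⌋₊ *
            Ck l (T * Vq (QT d) ⌊(X : ℝ) ^ (1 / (r : ℝ))⌋₊)| ≤
          ε * (Y * Vq (QT d) ⌊(X : ℝ) ^ (1 / (r : ℝ))⌋₊) := by
  obtain ⟨L, δ, hδ, htr⟩ := transfer l0 x0 ε hε
  obtain ⟨v, hv, hVlo⟩ := V_lower_unif k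
  obtain ⟨cz, Cz, hcz, hCz, hVz⟩ := Vz_bounds
  obtain ⟨r1, h1⟩ := gap_unif_exc k (k ^ 4) (by omega) (((1 : ℕ) : ℝ) + 1 + (k : ℝ) ^ 2 * (((1 : ℕ) : ℝ) + 2)) θ
    (fun R => (R : ℝ) * k * (((1 : ℕ) : ℝ) + 2) + 1) (by positivity) (fun R => by positivity) hθ L x0 δ hδ
  obtain ⟨r2, h2⟩ := gap_unif_exc (k + 1) ((k + 1) ^ 4) (by omega)
    (((1 : ℕ) : ℝ) + 1 + ((k + 1 : ℕ) : ℝ) ^ 2 * (((1 : ℕ) : ℝ) + 2)) θ
    (fun R => (R : ℝ) * ((k + 1 : ℕ) : ℝ) * (((1 : ℕ) : ℝ) + 2) + 1) (by positivity)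
    (fun R => by positivity) hθ 1 0 1 one_pos
  refine ⟨max (max r1 r2) 2, ?_⟩
  intro r hr
  have hr2 : 2 ≤ r := (le_max_right _ _).trans hr
  have hr1 : r1 ≤ r := ((le_max_left _ _).trans (le_max_left _ _)).trans hr
  have hr3 : r2 ≤ r := ((le_max_right _ _).trans (le_max_left _ _)).trans hr
  have hrr : (2 : ℝ) ≤ r := by exact_mod_cast hr2
  have hpow2 : Tendsto (fun X : ℕ => (X : ℝ) ^ (1 / (2 * r : ℝ))) atTop atTop :=
    (tendsto_rpow_atTop (by positivity)).comp tendsto_natCast_atTop_atTop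
  have hlogX : Tendsto (fun X : ℕ => Real.log (X : ℝ)) atTop atTop :=
    Real.tendsto_log_atTop.comp tendsto_natCast_atTop_atTop
  -- the bound of the shifts
  obtain ⟨D, hD⟩ : ∃ D, D = bd d + 2 := ⟨_, rfl⟩
  have hdD : ∀ l, d l ≤ D := fun l => by have := le_bd d l; omega
  have hhD : ∀ h ∈ Hs d, h ≤ D := by
    intro h hh
    obtain ⟨-, ⟨j, hj⟩, -⟩ := (mem_Hs d h).1 hh
    have := hdD j
    omega
  have hVzD : 0 < Vz D := Vz_pos D
  -- the primes of the inadmissible cases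
  have hbad : ∀ h ∈ Hs d, ∀ᶠ X : ℕ in atTop,
      ¬ Adm (Fin.snoc d h : Fin (k + 1) → ℕ) →
      ∀ m : ℕ, ¬ Sf (QT (Fin.snoc d h : Fin (k + 1) → ℕ)) ⌊(X : ℝ) ^ (1 / (r : ℝ))⌋₊ m := by
    intro h hh
    by_cases hA : Adm (Fin.snoc d h : Fin (k + 1) → ℕ)
    · exact Eventually.of_forall (fun _ hn => absurd hA hn)
    · have hA' := hA
      unfold Adm at hA'
      push Not at hA'
      obtain ⟨p, hp, hpm⟩ := hA'
      filter_upwards [hpow2.eventually_ge_atTop (p : ℝ), hpow2.eventually_ge_atTop 2,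
        eventually_ge_atTop 1] with X hX hX2 hX1
      intro _ m hS
      obtain ⟨hy1, -, -, -⟩ := level_low r hr2 X hX1 hX2
      have hpy : p ≤ ⌊(X : ℝ) ^ (1 / (r : ℝ))⌋₊ := by exact_mod_cast hX.trans hy1
      obtain ⟨i, hi⟩ := hpm m
      exact hS p (mem_pz.2 ⟨hpy, hp⟩) ⟨i, hi⟩
  have hbad2 : ∀ᶠ X : ℕ in atTop, ∀ h ∈ Hs d, ¬ Adm (Fin.snoc d h : Fin (k + 1) → ℕ) →
      ∀ m : ℕ, ¬ Sf (QT (Fin.snoc d h : Fin (k + 1) → ℕ)) ⌊(X : ℝ) ^ (1 / (r : ℝ))⌋₊ m :=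
    (Filter.eventually_all_finset (Hs d)).2 hbad
  obtain ⟨W, hW⟩ : ∃ W : ℝ, W = 2 * (Hs d).card * Cz / (Vz D * δ) * (2 * r) := ⟨_, rfl⟩
  filter_upwards [h1 r hr1, h2 r hr3, ctl_QT hk 1, ctl_QT (k := k + 1) (by omega) 1, hbad2,
    hpow2.eventually_ge_atTop ((D : ℝ) + 3), eventually_ge_atTop (D + 16),
    hlogX.eventually_ge_atTop (W + 1),
    logpow_rpow k (1 / (δ * v)) θ (by positivity) hθ] with
    X hX1 hX2 hc1 hc2 hX3 hX4 hX5 hX6 hX7
  intro Z Y hY l T hlT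
  have hXD : D ≤ X := by omega
  have hX16 : (16 : ℝ) ≤ X := by exact_mod_cast (by omega : 16 ≤ X)
  obtain ⟨hy1, hy2, hy3, hy4⟩ := level_low r hr2 X (by omega) (by
    have : (0 : ℝ) ≤ D := Nat.cast_nonneg _
    linarith)
  obtain ⟨y, hy⟩ : ∃ y, y = ⌊(X : ℝ) ^ (1 / (r : ℝ))⌋₊ := ⟨_, rfl⟩
  have hX3' := hX3
  rw [← hy] at hy1 hy2 hy3 hy4 hlT hX3' ⊢
  have hyD : D ≤ y := by
    have : (D : ℝ) ≤ y := by linarith
    exact_mod_cast this
  have hctl := hc1 d hadm hinj (fun i => by rw [pow_one]; exact (hdD i).trans hXD)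
  have hlaw := hX1 (QT d) hctl Z Y hY
  rw [← hy] at hlaw
  have hW0 : 0 ≤ W := by rw [hW]; positivity
  have hlX0 : 0 < Real.log X := by linarith
  have hly : 0 < Real.log y := lt_of_lt_of_le (by positivity) hy2
  have hVpos : 0 < Vq (QT d) y := Vq_pos _ hctl.adm y
  have hV1 : v / Real.log y ^ k ≤ Vq (QT d) y := hVlo (QT d) hctl.per hctl.adm y hy4
  have hV2 : v / Real.log X ^ k ≤ Vq (QT d) y := by
    refine le_trans ?_ hV1
    apply div_le_div_of_nonneg_left hv.le (by positivity)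
    exact pow_le_pow_left₀ hly.le hy3 k
  have hYV : 1 ≤ δ * (Y * Vq (QT d) y) := by
    have a1 : 1 / (δ * v) * Real.log X ^ k ≤ Y := hX7.trans hY
    have a2 : (1 / (δ * v) * Real.log X ^ k) * (v / Real.log X ^ k) ≤ Y * Vq (QT d) y :=
      mul_le_mul a1 hV2 (by positivity) (Nat.cast_nonneg _)
    have a3 : (1 / (δ * v) * Real.log X ^ k) * (v / Real.log X ^ k) = 1 / δ := by
      have : Real.log X ^ k ≠ 0 := by positivity
      field_simp
    rw [a3] at a2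
    calc 1 = δ * (1 / δ) := by field_simp
      _ ≤ δ * (Y * Vq (QT d) y) := mul_le_mul_of_nonneg_left a2 hδ.le
  -- the exceptions
  have hVzy : Vz y ≤ Cz / Real.log y := (hVz y hy4).2
  have hexc : ∀ h ∈ Hs d, (Nm (Sf (QT (Fin.snoc d h : Fin (k + 1) → ℕ)) y) Z Y : ℝ) ≤
      2 * (Y * (Vq (QT d) y * (Vz y / Vz D))) := by
    intro h hh
    have hR : 0 ≤ 2 * (Y * (Vq (QT d) y * (Vz y / Vz D))) := by
      have := Vz_pos y
      positivity
    by_cases hA : Adm (Fin.snoc d h : Fin (k + 1) → ℕ)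
    · obtain ⟨-, -, hne⟩ := (mem_Hs d h).1 hh
      have hle : ∀ i, (Fin.snoc d h : Fin (k + 1) → ℕ) i ≤ X ^ 1 := by
        intro i
        rw [pow_one]
        induction i using Fin.lastCases with
        | last =>
          rw [Fin.snoc_last (α := fun _ => ℕ)]
          exact (hhD h hh).trans hXD
        | cast i =>
          rw [Fin.snoc_castSucc (α := fun _ => ℕ)]
          exact (hdD i).trans hXD
      have hctl2 := hc2 _ hA (inj_snoc d hinj h hne) hle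
      have h3 := hX2 _ hctl2 Z Y hY 1 0 (Or.inl le_rfl)
      rw [← hy, Pk_one] at h3
      have e0 : Ck 1 ((0 : ℕ) * Vq (QT (Fin.snoc d h : Fin (k + 1) → ℕ)) y) = 1 := by
        unfold Ck pw
        simp
      rw [e0] at h3
      have h4 := (abs_le.1 h3).2
      have h5 : (Nm (Sf (QT (Fin.snoc d h : Fin (k + 1) → ℕ)) y) Z Y : ℝ) ≤
          2 * (Y * Vq (QT (Fin.snoc d h : Fin (k + 1) → ℕ)) y) := by linarith
      refine h5.trans ?_
      have h6 := V_snoc d h hne D hdD (hhD h hh) y hyD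
      have h7 : Vq (QT (Fin.snoc d h : Fin (k + 1) → ℕ)) y ≤ Vq (QT d) y * (Vz y / Vz D) := by
        rw [← mul_div_assoc, le_div_iff₀ hVzD]
        exact h6
      gcongr
    · have h3 : Nm (Sf (QT (Fin.snoc d h : Fin (k + 1) → ℕ)) y) Z Y = 0 := by
        unfold Nm
        rw [card_eq_zero, filter_eq_empty_iff]
        intro m _
        exact hX3' h hh hA m
      rw [h3, Nat.cast_zero]
      exact hR
  have hdf : (Nm (Df (Sf (QT d) y) (Sc d y)) Z Y : ℝ) ≤ δ * (Y * Vq (QT d) y) := by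
    have b1 : (Nm (Df (Sf (QT d) y) (Sc d y)) Z Y : ℝ) ≤
        ∑ h ∈ Hs d, (Nm (Sf (QT (Fin.snoc d h : Fin (k + 1) → ℕ)) y) Z Y : ℝ) := by
      exact_mod_cast nm_df d y Z Y
    have b2 : ∑ h ∈ Hs d, (Nm (Sf (QT (Fin.snoc d h : Fin (k + 1) → ℕ)) y) Z Y : ℝ) ≤
        (Hs d).card * (2 * (Y * (Vq (QT d) y * (Vz y / Vz D)))) := by
      rw [← nsmul_eq_mul]
      exact Finset.sum_le_card_nsmul _ _ _ hexc
    refine (b1.trans b2).trans ?_
    have b3 : (Hs d).card * (2 * (Vz y / Vz D)) ≤ δ := by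
      have c1 : W ≤ Real.log X := by linarith
      have c2 : W / (2 * r) ≤ Real.log y := by
        refine le_trans ?_ hy2
        gcongr
      have c3 : W / (2 * r) = 2 * (Hs d).card * Cz / (Vz D * δ) := by
        rw [hW]
        field_simp
      rw [c3, div_le_iff₀ (by positivity)] at c2
      have c4 : Vz y * Real.log y ≤ Cz := by
        rwa [le_div_iff₀ hly] at hVzy
      have c5 : (Hs d).card * (2 * (Vz y / Vz D)) = (2 * (Hs d).card * Vz y) / Vz D := by ring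
      rw [c5, div_le_iff₀ hVzD]
      have c6 : (2 * (Hs d).card * Vz y) * Real.log y ≤ (δ * Vz D) * Real.log y := by
        calc (2 * (Hs d).card * Vz y) * Real.log y = 2 * (Hs d).card * (Vz y * Real.log y) := by ring
          _ ≤ 2 * (Hs d).card * Cz := by gcongr
          _ ≤ Real.log y * (Vz D * δ) := c2
          _ = (δ * Vz D) * Real.log y := by ring
      exact le_of_mul_le_mul_right c6 hly
    calc (Hs d).card * (2 * (Y * (Vq (QT d) y * (Vz y / Vz D)))) =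
        ((Hs d).card * (2 * (Vz y / Vz D))) * (Y * Vq (QT d) y) := by ring
      _ ≤ δ * (Y * Vq (QT d) y) := by gcongr
  exact htr (Sf (QT d) y) (Sc d y) (fun m hm => hm.1) (Vq (QT d) y) Z Y hVpos.le hYV hdf hlaw l T hlT

end Pool.Agent.Y32.GC
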